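import Mathlib
import Pool.Agent.V11331.Q.Base

set_option autoImplicit false

open MeasureTheory ProbabilityTheory
open scoped ENNReal

namespace Pool.Agent.V11331.Q.Bound

/-- law of a fair-less coin: `true` with probability `1/10` -/
noncomputable abbrev ν : Measure Bool := bern (1 / 10)

instance : IsProbabilityMeasure ν := bern_prob (by norm_num) (by norm_num)

abbrev Om := ℕ → Bool

noncomputable abbrev PP : Measure Om := Measure.infinitePi fun _ => ν

/-- service time -/
noncomputable def s (b : Bool) : ℝ := if b then 12 else 9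

noncomputable def S (n : ℕ) (ω : Om) : ℝ := s (ω n)

noncomputable def T (_ : ℕ) (_ : Om) : ℝ := 5

open Classical in
/-- index of the least loaded server (server 0 in case of a tie) -/
noncomputable def idx (v : Fin 2 → ℝ) : Fin 2 := if v 0 ≤ v 1 then 0 else 1

noncomputable def V : ℕ → Om → Fin 2 → ℝ
  | 0, _ => fun _ => 0
  | n + 1, ω => fun i => max 0 (V n ω i + (if i = idx (V n ω) then S n ω else 0) - T n ω)

lemma idx_le (v : Fin 2 → ℝ) (i : Fin 2) : v (idx v) ≤ v i := by
  unfold idx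
  split_ifs with h
  · fin_cases i
    · exact le_rfl
    · exact h
  · fin_cases i
    · exact (not_le.1 h).le
    · exact le_rfl

lemma s_cases (b : Bool) : s b = 12 ∨ s b = 9 := by
  cases b <;> simp [s]

lemma V_four (ω : Om) : (if ω 2 then (2:ℝ) else 0) + (if ω 0 then (1:ℝ) else 0) ≤ V 4 ω 0 ∧
    (if ω 2 then (2:ℝ) else 0) + (if ω 0 then (1:ℝ) else 0) ≤ V 4 ω 1 := by
  have e0 : V 0 ω = fun _ => 0 := rfl
  have i0 : idx (V 0 ω) = 0 := by rw [e0]; unfold idx; simp
  have e1 : V 1 ω = ![S 0 ω - 5, 0] := by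
    funext i
    change max 0 (V 0 ω i + (if i = idx (V 0 ω) then S 0 ω else 0) - T 0 ω) = _
    rw [i0, e0]
    rcases s_cases (ω 0) with h | h <;> fin_cases i <;> simp [T, S, h] <;> norm_num
  have i1 : idx (V 1 ω) = 1 := by
    rw [e1]; unfold idx
    rcases s_cases (ω 0) with h | h <;> simp [S, h] <;> norm_num
  have e2 : V 2 ω = ![S 0 ω - 10 + (if ω 0 then 0 else 1), S 1 ω - 5] := by
    funext i
    change max 0 (V 1 ω i + (if i = idx (V 1 ω) then S 1 ω else 0) - T 1 ω) = _
    rw [i1, e1]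
    rcases hb : ω 0 <;> rcases hc : ω 1 <;> fin_cases i <;> simp [T, S, s, hb, hc] <;> norm_num
  have i2 : idx (V 2 ω) = 0 := by
    rw [e2]; unfold idx
    rcases hb : ω 0 <;> rcases hc : ω 1 <;> simp [S, s, hb, hc] <;> norm_num
  have e3 : V 3 ω = ![S 0 ω - 10 + (if ω 0 then 0 else 1) + S 2 ω - 5, S 1 ω - 10 + (if ω 1 then 0 else 1)] := by
    funext i
    change max 0 (V 2 ω i + (if i = idx (V 2 ω) then S 2 ω else 0) - T 2 ω) = _
    rw [i2, e2]
    rcases hb : ω 0 <;> rcases hc : ω 1 <;> rcases hd : ω 2 <;> fin_cases i <;>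
      simp [T, S, s, hb, hc, hd] <;> norm_num
  have i3 : idx (V 3 ω) = 1 := by
    rw [e3]; unfold idx
    rcases hb : ω 0 <;> rcases hc : ω 1 <;> rcases hd : ω 2 <;> simp [S, s, hb, hc, hd] <;> norm_num
  have e4 : ∀ i, V 4 ω i = max 0 (V 3 ω i + (if i = idx (V 3 ω) then S 3 ω else 0) - T 3 ω) :=
    fun i => rfl
  rw [e4, e4, i3, e3]
  rcases hb : ω 0 <;> rcases hc : ω 1 <;> rcases hd : ω 2 <;> rcases he : ω 3 <;>
      simp [T, S, s, hb, hc, hd, he] <;> norm_num

lemma meas_S (n : ℕ) : Measurable (S n) := by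
  have h : Measurable s := Measurable.of_discrete
  exact h.comp (measurable_pi_apply n)

lemma meas_T (n : ℕ) : Measurable (T n) := measurable_const

lemma mp (n : ℕ) : MeasurePreserving (fun ω : Om => ω n) PP ν :=
  measurePreserving_eval_infinitePi (fun _ : ℕ => ν) n

lemma integral_coord (f : Bool → ℝ) (n : ℕ) : ∫ ω, f (ω n) ∂PP = 1 / 10 * f true + 9 / 10 * f false := by
  have h1 : ∫ ω, f (ω n) ∂PP = ∫ x, f x ∂ν := by
    have h2 : Measure.map (fun ω : Om => ω n) PP = ν := (mp n).map_eq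
    rw [← h2, integral_map (mp n).measurable.aemeasurable]
    exact Measurable.of_discrete.aestronglyMeasurable
  rw [h1, integral_bern (by norm_num) (by norm_num)]
  norm_num

lemma lintegral_coord (f : Bool → ℝ≥0∞) (n : ℕ) : ∫⁻ ω, f (ω n) ∂PP = ENNReal.ofReal (1 / 10) * f true +
    ENNReal.ofReal (1 - 1 / 10) * f false := by
  have h1 : ∫⁻ ω, f (ω n) ∂PP = ∫⁻ x, f x ∂ν := by
    have h2 : Measure.map (fun ω : Om => ω n) PP = ν := (mp n).map_eq
    rw [← h2, lintegral_map Measurable.of_discrete (mp n).measurable]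
  rw [h1, lintegral_bern]

lemma indep : iIndepFun (fun n (ω : Om) => (T n ω, S n ω)) PP := by
  have h : iIndepFun (fun n (ω : Om) => (fun b : Bool => ((5:ℝ), s b)) (ω n)) PP :=
    iIndepFun_infinitePi (P := fun _ : ℕ => ν) (X := fun _ b => ((5:ℝ), s b))
      (fun _ => Measurable.of_discrete)
  exact h

lemma indep_TS (n : ℕ) : IndepFun (T n) (S n) PP := by
  exact indepFun_const_left (5:ℝ) (S n)

lemma ident_S (n : ℕ) : IdentDistrib (S n) (S 0) PP PP := by
  have h : IdentDistrib (fun ω : Om => ω n) (fun ω : Om => ω 0) PP PP :=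
    ⟨(mp n).measurable.aemeasurable, (mp 0).measurable.aemeasurable, by
      rw [(mp n).map_eq, (mp 0).map_eq]⟩
  exact h.comp (u := s) Measurable.of_discrete

lemma ident_T (n : ℕ) : IdentDistrib (T n) (T 0) PP PP := IdentDistrib.refl (meas_T n).aemeasurable

lemma int_T : ∫ ω, T 0 ω ∂PP = 5 := by simp [T]

lemma int_S : ∫ ω, S 0 ω ∂PP = 93 / 10 := by
  have := integral_coord s 0
  unfold S
  rw [this]; norm_num [s]

lemma memLp_S : MemLp (S 0) 2 PP := by
  refine MemLp.of_bound (meas_S 0).aestronglyMeasurable 12 (Filter.Eventually.of_forall fun ω => ?_)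
  rcases s_cases (ω 0) with h | h
  · simp [S, h]
  · simp [S, h]; norm_num

lemma var_S : variance (S 0) PP = 81 / 100 := by
  rw [variance_eq_sub memLp_S, int_S]
  have : ∫ ω, (S 0 ^ 2) ω ∂PP = 1 / 10 * 144 + 9 / 10 * 81 := by
    have := integral_coord (fun b => s b ^ 2) 0
    simp only [Pi.pow_apply, S]
    rw [this]; norm_num [s]
  rw [this]; norm_num

lemma var_T : variance (T 0) PP = 0 := by
  have h : MemLp (T 0) 2 PP := memLp_const 5
  rw [variance_eq_sub h, int_T]
  have : ∫ ω, (T 0 ^ 2) ω ∂PP = 25 := by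
    simp [T]; norm_num
  rw [this]; norm_num

lemma lower : ENNReal.ofReal (3 / 10) ≤ ∫⁻ ω, ENNReal.ofReal (⨅ i, V 4 ω i) ∂PP := by
  have h1 : ∀ ω : Om, (if ω 2 then (2:ℝ≥0∞) else 0) + (if ω 0 then (1:ℝ≥0∞) else 0) ≤
      ENNReal.ofReal (⨅ i, V 4 ω i) := by
    intro ω
    obtain ⟨h0, h1⟩ := V_four ω
    have h2 : (if ω 2 then (2:ℝ) else 0) + (if ω 0 then (1:ℝ) else 0) ≤ ⨅ i, V 4 ω i := by
      refine le_ciInf fun i => ?_
      fin_cases i
      · exact h0
      · exact h1
    refine le_trans (le_of_eq ?_) (ENNReal.ofReal_le_ofReal h2)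
    rcases hb : ω 0 <;> rcases hc : ω 2 <;> simp
    rw [ENNReal.ofReal_add (by norm_num) (by norm_num)]
    simp
  refine le_trans ?_ (lintegral_mono h1)
  have hm : Measurable fun ω : Om => (if ω 2 then (2:ℝ≥0∞) else 0) := by
    have h : Measurable fun b : Bool => (if b then (2:ℝ≥0∞) else 0) := Measurable.of_discrete
    exact h.comp (measurable_pi_apply 2)
  rw [lintegral_add_left hm]
  have e1 := lintegral_coord (fun b : Bool => (if b then (2:ℝ≥0∞) else 0)) 2
  have e2 := lintegral_coord (fun b : Bool => (if b then (1:ℝ≥0∞) else 0)) 0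
  rw [e1, e2]
  simp only [if_true, Bool.false_eq_true, if_false, mul_zero, add_zero, mul_one]
  have : (2:ℝ≥0∞) = ENNReal.ofReal 2 := by simp
  rw [this, ← ENNReal.ofReal_mul (by norm_num), ← ENNReal.ofReal_add (by norm_num) (by norm_num)]
  exact ENNReal.ofReal_le_ofReal (by norm_num)

end Pool.Agent.V11331.Q.Bound
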