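import Mathlib
import Pool.Agent.V11331.Q.Base

set_option autoImplicit false

open MeasureTheory ProbabilityTheory
open scoped ENNReal

namespace Pool.Agent.V11331.Q.Fast

noncomputable abbrev ν : Measure Bool := bern (1 / 8)

instance : IsProbabilityMeasure ν := bern_prob (by norm_num) (by norm_num)

abbrev Om := ℕ ⊕ ℕ → Bool

noncomputable abbrev PP : Measure Om := Measure.infinitePi fun _ => ν

/-- interarrival time -/
noncomputable def t (b : Bool) : ℝ := if b then 9 else 10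

/-- service time -/
noncomputable def s (b : Bool) : ℝ := if b then 20 else 12

noncomputable def T (n : ℕ) (ω : Om) : ℝ := t (ω (Sum.inl n))

noncomputable def S (n : ℕ) (ω : Om) : ℝ := s (ω (Sum.inr n))

open Classical in
/-- index of the least loaded server (server 0 in case of a tie) -/
noncomputable def idx (v : Fin 2 → ℝ) : Fin 2 := if v 0 ≤ v 1 then 0 else 1

noncomputable def V : ℕ → Om → Fin 2 → ℝ
  | 0, _ => fun _ => 0
  | n + 1, ω => fun i => max 0 (V n ω i + (if i = idx (V n ω) then S n ω else 0) - T n ω)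

/-- the workload of the fast single server, an integer -/
def N : ℕ → Om → ℕ
  | 0, _ => 0
  | n + 1, ω => N n ω + (if ω (Sum.inr n) then 10 else 6) - (if ω (Sum.inl n) then 9 else 10)

noncomputable def U (n : ℕ) (ω : Om) : ℝ := (N n ω : ℝ)

lemma idx_le (v : Fin 2 → ℝ) (i : Fin 2) : v (idx v) ≤ v i := by
  unfold idx
  split_ifs with h
  · fin_cases i
    · exact le_rfl
    · exact h
  · fin_cases i
    · exact (not_le.1 h).le
    · exact le_rfl

lemma V_two (ω : Om) :
    (if ω (Sum.inr 0) then ((if ω (Sum.inl 0) then (1:ℝ) else 0) + (if ω (Sum.inl 1) then (1:ℝ) else 0))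
      else 0) ≤ V 2 ω 0 ∧
    (if ω (Sum.inr 0) then ((if ω (Sum.inl 0) then (1:ℝ) else 0) + (if ω (Sum.inl 1) then (1:ℝ) else 0))
      else 0) ≤ V 2 ω 1 := by
  have e0 : V 0 ω = fun _ => 0 := rfl
  have i0 : idx (V 0 ω) = 0 := by rw [e0]; unfold idx; simp
  have e1 : V 1 ω = ![S 0 ω - T 0 ω, 0] := by
    funext i
    change max 0 (V 0 ω i + (if i = idx (V 0 ω) then S 0 ω else 0) - T 0 ω) = _
    rw [i0, e0]
    rcases hb : ω (Sum.inl 0) <;> rcases hc : ω (Sum.inr 0) <;> fin_cases i <;>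
      simp [T, S, s, t, hb, hc] <;> norm_num
  have i1 : idx (V 1 ω) = 1 := by
    rw [e1]; unfold idx
    rcases hb : ω (Sum.inl 0) <;> rcases hc : ω (Sum.inr 0) <;> simp [S, T, s, t, hb, hc] <;> norm_num
  have e2 : ∀ i, V 2 ω i = max 0 (V 1 ω i + (if i = idx (V 1 ω) then S 1 ω else 0) - T 1 ω) :=
    fun i => rfl
  rw [e2, e2, i1, e1]
  rcases hb : ω (Sum.inl 0) <;> rcases hc : ω (Sum.inr 0) <;> rcases hd : ω (Sum.inl 1) <;>
    rcases he : ω (Sum.inr 1) <;>
      simp [T, S, s, t, hb, hc, hd, he] <;> norm_num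

lemma U_succ (n : ℕ) (ω : Om) : U (n + 1) ω = max 0 (U n ω + S n ω / ((2:ℕ) : ℝ) - T n ω) := by
  unfold U
  rw [N]
  rcases hb : ω (Sum.inl n) <;> rcases hc : ω (Sum.inr n) <;>
    simp only [T, S, s, t, hb, hc, if_true, Bool.false_eq_true, if_false]
  · rcases le_total 4 (N n ω) with h | h
    · obtain ⟨m, hm⟩ := Nat.exists_eq_add_of_le h
      rw [hm]
      have : 4 + m + 6 - 10 = m := by omega
      rw [this]; push_cast
      rw [max_eq_right (by linarith [(Nat.cast_nonneg m : (0:ℝ) ≤ m)])]; ring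
    · have : N n ω + 6 - 10 = 0 := by omega
      rw [this]
      have h4 : (N n ω : ℝ) ≤ 4 := by exact_mod_cast h
      push_cast
      rw [max_eq_left (by linarith)]
  · have : N n ω + 10 - 10 = N n ω := by omega
    rw [this]; push_cast
    rw [max_eq_right (by linarith [(Nat.cast_nonneg (N n ω) : (0:ℝ) ≤ N n ω)])]; ring
  · rcases le_total 3 (N n ω) with h | h
    · obtain ⟨m, hm⟩ := Nat.exists_eq_add_of_le h
      rw [hm]
      have : 3 + m + 6 - 9 = m := by omega
      rw [this]; push_cast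
      rw [max_eq_right (by linarith [(Nat.cast_nonneg m : (0:ℝ) ≤ m)])]; ring
    · have : N n ω + 6 - 9 = 0 := by omega
      rw [this]
      have h4 : (N n ω : ℝ) ≤ 3 := by exact_mod_cast h
      push_cast
      rw [max_eq_left (by linarith)]
  · have : N n ω + 10 - 9 = N n ω + 1 := by omega
    rw [this]; push_cast
    rw [max_eq_right (by linarith [(Nat.cast_nonneg (N n ω) : (0:ℝ) ≤ N n ω)])]; ring

lemma meas_S (n : ℕ) : Measurable (S n) := by
  have h : Measurable s := Measurable.of_discrete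
  exact h.comp (measurable_pi_apply _)

lemma meas_T (n : ℕ) : Measurable (T n) := by
  have h : Measurable t := Measurable.of_discrete
  exact h.comp (measurable_pi_apply _)

lemma mp (n : ℕ ⊕ ℕ) : MeasurePreserving (fun ω : Om => ω n) PP ν :=
  measurePreserving_eval_infinitePi (fun _ : ℕ ⊕ ℕ => ν) n

lemma integral_coord (f : Bool → ℝ) (n : ℕ ⊕ ℕ) :
    ∫ ω, f (ω n) ∂PP = 1 / 8 * f true + 7 / 8 * f false := by
  have h1 : ∫ ω, f (ω n) ∂PP = ∫ x, f x ∂ν := by
    have h2 : Measure.map (fun ω : Om => ω n) PP = ν := (mp n).map_eq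
    rw [← h2, integral_map (mp n).measurable.aemeasurable]
    exact Measurable.of_discrete.aestronglyMeasurable
  rw [h1, integral_bern (by norm_num) (by norm_num)]
  norm_num

lemma lintegral_coord (f : Bool → ℝ≥0∞) (n : ℕ ⊕ ℕ) :
    ∫⁻ ω, f (ω n) ∂PP = ENNReal.ofReal (1 / 8) * f true +
    ENNReal.ofReal (7 / 8) * f false := by
  have h1 : ∫⁻ ω, f (ω n) ∂PP = ∫⁻ x, f x ∂ν := by
    have h2 : Measure.map (fun ω : Om => ω n) PP = ν := (mp n).map_eq
    rw [← h2, lintegral_map Measurable.of_discrete (mp n).measurable]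
  rw [h1, lintegral_bern]
  norm_num

lemma indep0 : iIndepFun (fun (i : ℕ ⊕ ℕ) (ω : Om) => ω i) PP :=
  iIndepFun_infinitePi (P := fun _ : ℕ ⊕ ℕ => ν) (X := fun _ b => b) (fun _ => measurable_id)

lemma indep : iIndepFun (fun i : ℕ ⊕ ℕ => Sum.elim T S i) PP := by
  have h : iIndepFun (fun (i : ℕ ⊕ ℕ) (ω : Om) =>
      (Sum.elim (fun _ => t) (fun _ => s) i : Bool → ℝ) (ω i)) PP :=
    iIndepFun_infinitePi (P := fun _ : ℕ ⊕ ℕ => ν)
      (X := fun i => (Sum.elim (fun _ => t) (fun _ => s) i : Bool → ℝ))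
      (fun _ => Measurable.of_discrete)
  have e : (fun i : ℕ ⊕ ℕ => Sum.elim T S i) = (fun (i : ℕ ⊕ ℕ) (ω : Om) =>
      (Sum.elim (fun _ => t) (fun _ => s) i : Bool → ℝ) (ω i)) := by
    funext i ω
    rcases i with i | i <;> rfl
  rw [e]; exact h

lemma ident_c (i j : ℕ ⊕ ℕ) : IdentDistrib (fun ω : Om => ω i) (fun ω : Om => ω j) PP PP :=
    ⟨(mp i).measurable.aemeasurable, (mp j).measurable.aemeasurable, by
      rw [(mp i).map_eq, (mp j).map_eq]⟩

lemma ident_S (n : ℕ) : IdentDistrib (S n) (S 0) PP PP :=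
  (ident_c (Sum.inr n) (Sum.inr 0)).comp (u := s) Measurable.of_discrete

lemma ident_T (n : ℕ) : IdentDistrib (T n) (T 0) PP PP :=
  (ident_c (Sum.inl n) (Sum.inl 0)).comp (u := t) Measurable.of_discrete

lemma int_T : ∫ ω, T 0 ω ∂PP = 79 / 8 := by
  have := integral_coord t (Sum.inl 0)
  unfold T
  rw [this]; norm_num [t]

lemma int_S : ∫ ω, S 0 ω ∂PP = 13 := by
  have := integral_coord s (Sum.inr 0)
  unfold S
  rw [this]; norm_num [s]

lemma t_nn (b : Bool) : 0 ≤ t b := by cases b <;> simp [t]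

lemma s_nn (b : Bool) : 0 ≤ s b := by cases b <;> simp [s]

lemma intble_S : Integrable (S 0) PP := by
  refine Integrable.of_bound (meas_S 0).aestronglyMeasurable 20 (Filter.Eventually.of_forall fun ω => ?_)
  unfold S
  rw [Real.norm_of_nonneg (s_nn _)]
  cases ω (Sum.inr 0) <;> simp [s]; norm_num

lemma intble_T : Integrable (T 0) PP := by
  refine Integrable.of_bound (meas_T 0).aestronglyMeasurable 20 (Filter.Eventually.of_forall fun ω => ?_)
  unfold T
  rw [Real.norm_of_nonneg (t_nn _)]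
  cases ω (Sum.inl 0) <;> simp [t] <;> norm_num

/-! ### independence -/

lemma lintegral_two (f g : Bool → ℝ≥0∞) {i j : ℕ ⊕ ℕ} (hij : i ≠ j) :
    ∫⁻ ω, f (ω i) * g (ω j) ∂PP = (ENNReal.ofReal (1 / 8) * f true + ENNReal.ofReal (7 / 8) * f false) *
      (ENNReal.ofReal (1 / 8) * g true + ENNReal.ofReal (7 / 8) * g false) := by
  have h1 : IndepFun (fun ω : Om => ω i) (fun ω : Om => ω j) PP := indep0.indepFun hij
  have hf : Measurable f := Measurable.of_discrete
  have hg : Measurable g := Measurable.of_discrete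
  have h2 : IndepFun (fun ω : Om => f (ω i)) (fun ω : Om => g (ω j)) PP := h1.comp hf hg
  have h3 := lintegral_mul_eq_lintegral_mul_lintegral_of_indepFun
    (hf.comp (measurable_pi_apply i)) (hg.comp (measurable_pi_apply j)) h2
  rw [← lintegral_coord f i, ← lintegral_coord g j]
  exact h3

lemma N_congr (n : ℕ) : ∀ ω ω' : Om, (∀ m < n, ω (Sum.inl m) = ω' (Sum.inl m) ∧
    ω (Sum.inr m) = ω' (Sum.inr m)) → N n ω = N n ω' := by
  induction n with
  | zero => intro _ _ _; rfl
  | succ n ih =>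
    intro ω ω' h
    rw [N, N, ih ω ω' fun m hm => h m (by omega), (h n (by omega)).1, (h n (by omega)).2]

def Sn (n : ℕ) : Finset (ℕ ⊕ ℕ) := (Finset.range n).disjSum (Finset.range n)

def φ (n : ℕ) (y : (i : Sn n) → Bool) : ℕ :=
  N n (fun i => if h : i ∈ Sn n then y ⟨i, h⟩ else false)

lemma N_eq (n : ℕ) (ω : Om) : N n ω = φ n (fun i => ω i) := by
  unfold φ
  apply N_congr
  intro m hm
  have h1 : Sum.inl m ∈ Sn n := by simp [Sn, hm]
  have h2 : Sum.inr m ∈ Sn n := by simp [Sn, hm]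
  simp [h1, h2]

lemma meas_N (n : ℕ) : Measurable (N n) := by
  have h : Measurable (φ n) := Measurable.of_discrete
  have e : N n = fun ω => φ n (fun i : Sn n => ω i) := by
    funext ω; exact N_eq n ω
  rw [e]
  exact h.comp (measurable_pi_lambda _ fun i => measurable_pi_apply _)

lemma indepN (n : ℕ) : IndepFun (N n) (fun ω : Om => (ω (Sum.inl n), ω (Sum.inr n))) PP := by
  have hd : Disjoint (Sn n) {Sum.inl n, Sum.inr n} := by
    rw [Finset.disjoint_left]
    intro i hi h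
    rcases i with i | i
    · simp [Sn] at hi h; omega
    · simp [Sn] at hi h; omega
  have h1 := indep0.indepFun_finset (Sn n) {Sum.inl n, Sum.inr n} hd (fun i => measurable_pi_apply i)
  have h2 := h1.comp (φ := φ n)
    (ψ := fun y => (y ⟨Sum.inl n, by simp⟩, y ⟨Sum.inr n, by simp⟩)) Measurable.of_discrete
    Measurable.of_discrete
  have e : N n = φ n ∘ (fun (a : Om) (i : Sn n) => a i) := by
    funext ω; exact N_eq n ω
  rw [e]
  exact h2

/-! ### the bound for the single server -/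

noncomputable def h (m : ℕ) : ℝ≥0∞ := ((2 ^ m - 1 : ℕ) : ℝ≥0∞)

noncomputable def α (x : Bool × Bool) : ℝ≥0∞ := if x.2 then (if x.1 then 2 else 1) else 8⁻¹

noncomputable def β (x : Bool × Bool) : ℝ≥0∞ := if x.2 then (if x.1 then 1 else 0) else 0

lemma h_drop (m k : ℕ) (hk : 3 ≤ k) : h (m - k) ≤ h m * 8⁻¹ := by
  have h1 : (2 ^ (m - k) - 1) * 8 ≤ 2 ^ m - 1 := by
    rcases le_total k m with hkm | hkm
    · obtain ⟨r, rfl⟩ := Nat.exists_eq_add_of_le hkm
      have : k + r - k = r := by omega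
      rw [this, pow_add]
      obtain ⟨q, rfl⟩ := Nat.exists_eq_add_of_le hk
      have h3 : 1 ≤ 2 ^ r := Nat.one_le_two_pow
      have h4 : 1 ≤ 2 ^ q := Nat.one_le_two_pow
      have h5 : 2 ^ (3 + q) * 2 ^ r = 8 * (2 ^ q * 2 ^ r) := by rw [pow_add]; ring
      rw [h5]
      have h6 : 2 ^ r ≤ 2 ^ q * 2 ^ r := Nat.le_mul_of_pos_left _ (by omega)
      omega
    · have : m - k = 0 := by omega
      rw [this]; simp
  unfold h
  rw [← div_eq_mul_inv, ENNReal.le_div_iff_mul_le (by simp) (by simp)]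
  exact_mod_cast h1

lemma step (n : ℕ) (ω : Om) : h (N (n + 1) ω) ≤
    h (N n ω) * α (ω (Sum.inl n), ω (Sum.inr n)) + β (ω (Sum.inl n), ω (Sum.inr n)) := by
  rw [N]
  rcases hb : ω (Sum.inl n) <;> rcases hc : ω (Sum.inr n) <;>
    simp only [α, β, if_true, Bool.false_eq_true, if_false, add_zero]
  · have : N n ω + 6 - 10 = N n ω - 4 := by omega
    rw [this]; exact h_drop _ _ (by norm_num)
  · have : N n ω + 10 - 10 = N n ω := by omega
    rw [this]; simp
  · have : N n ω + 6 - 9 = N n ω - 3 := by omega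
    rw [this]; exact h_drop _ _ (by norm_num)
  · have : N n ω + 10 - 9 = N n ω + 1 := by omega
    rw [this]
    unfold h
    have h3 : 1 ≤ 2 ^ (N n ω) := Nat.one_le_two_pow
    have : 2 ^ (N n ω + 1) - 1 = (2 ^ (N n ω) - 1) * 2 + 1 := by rw [pow_succ]; omega
    rw [this]; push_cast; exact le_rfl

lemma ofr : ENNReal.ofReal (1 / 8) = 8⁻¹ := by
  rw [one_div, ENNReal.ofReal_inv_of_pos (by norm_num)]; simp

lemma int_β (n : ℕ) : ∫⁻ ω : Om, β (ω (Sum.inl n), ω (Sum.inr n)) ∂PP = ENNReal.ofReal (1 / 64) := by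
  have e : ∀ ω : Om, β (ω (Sum.inl n), ω (Sum.inr n)) =
      (if ω (Sum.inl n) then (1:ℝ≥0∞) else 0) * (if ω (Sum.inr n) then (1:ℝ≥0∞) else 0) := by
    intro ω
    rcases hb : ω (Sum.inl n) <;> rcases hc : ω (Sum.inr n) <;> simp [β]
  simp_rw [e]
  have := lintegral_two (fun b : Bool => if b then (1:ℝ≥0∞) else 0) (fun b : Bool => if b then (1:ℝ≥0∞) else 0)
    (i := Sum.inl n) (j := Sum.inr n) (by simp)
  rw [this]
  simp only [if_true, mul_one, Bool.false_eq_true, if_false, mul_zero, add_zero]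
  rw [← ENNReal.ofReal_mul (by norm_num)]
  norm_num

lemma int_α (n : ℕ) : ∫⁻ ω : Om, α (ω (Sum.inl n), ω (Sum.inr n)) ∂PP = ENNReal.ofReal (1 / 4) := by
  have e : ∀ ω : Om, α (ω (Sum.inl n), ω (Sum.inr n)) =
      (if ω (Sum.inl n) then (2:ℝ≥0∞) else 1) * (if ω (Sum.inr n) then (1:ℝ≥0∞) else 0) +
      (if ω (Sum.inl n) then (1:ℝ≥0∞) else 1) * (if ω (Sum.inr n) then (0:ℝ≥0∞) else 8⁻¹) := by
    intro ω
    rcases hb : ω (Sum.inl n) <;> rcases hc : ω (Sum.inr n) <;> simp [α]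
  simp_rw [e]
  have hm : Measurable fun ω : Om => (if ω (Sum.inl n) then (2:ℝ≥0∞) else 1) *
      (if ω (Sum.inr n) then (1:ℝ≥0∞) else 0) := by
    have h1 : Measurable fun x : Bool × Bool => (if x.1 then (2:ℝ≥0∞) else 1) *
      (if x.2 then (1:ℝ≥0∞) else 0) := Measurable.of_discrete
    have h2 : Measurable fun ω : Om => (ω (Sum.inl n), ω (Sum.inr n)) :=
      (measurable_pi_apply (Sum.inl n)).prodMk (measurable_pi_apply (Sum.inr n))
    exact h1.comp h2
  rw [lintegral_add_left hm]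
  have h1 := lintegral_two (fun b : Bool => if b then (2:ℝ≥0∞) else 1) (fun b : Bool => if b then (1:ℝ≥0∞) else 0)
    (i := Sum.inl n) (j := Sum.inr n) (by simp)
  have h2 := lintegral_two (fun b : Bool => if b then (1:ℝ≥0∞) else 1) (fun b : Bool => if b then (0:ℝ≥0∞) else 8⁻¹)
    (i := Sum.inl n) (j := Sum.inr n) (by simp)
  rw [h1, h2]
  simp only [if_true, mul_one, Bool.false_eq_true, if_false, mul_zero, add_zero, zero_add]
  have e2 : (2:ℝ≥0∞) = ENNReal.ofReal 2 := by simp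
  rw [← ofr, e2]
  rw [← ENNReal.ofReal_mul (by norm_num), ← ENNReal.ofReal_mul (by norm_num),
    ← ENNReal.ofReal_add (by norm_num) (by norm_num), ← ENNReal.ofReal_mul (by norm_num),
    ← ENNReal.ofReal_add (by norm_num) (by norm_num), ← ENNReal.ofReal_mul (by norm_num),
    ← ENNReal.ofReal_add (by norm_num) (by norm_num)]
  congr 1; norm_num

lemma upper (n : ℕ) : ∫⁻ ω, h (N n ω) ∂PP ≤ ENNReal.ofReal (1 / 48) := by
  induction n with
  | zero => simp [N, h]
  | succ n ih =>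
    have hmh : Measurable fun ω : Om => h (N n ω) :=
      (Measurable.of_discrete : Measurable h).comp (meas_N n)
    have hmp : Measurable fun ω : Om => (ω (Sum.inl n), ω (Sum.inr n)) :=
      (measurable_pi_apply (Sum.inl n)).prodMk (measurable_pi_apply (Sum.inr n))
    have hmα : Measurable fun ω : Om => α (ω (Sum.inl n), ω (Sum.inr n)) :=
      (Measurable.of_discrete : Measurable α).comp hmp
    calc ∫⁻ ω, h (N (n + 1) ω) ∂PP
        ≤ ∫⁻ ω, (h (N n ω) * α (ω (Sum.inl n), ω (Sum.inr n)) +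
            β (ω (Sum.inl n), ω (Sum.inr n))) ∂PP := lintegral_mono (step n)
      _ = ∫⁻ ω, h (N n ω) * α (ω (Sum.inl n), ω (Sum.inr n)) ∂PP +
            ∫⁻ ω : Om, β (ω (Sum.inl n), ω (Sum.inr n)) ∂PP := lintegral_add_left (hmh.mul hmα) _
      _ = (∫⁻ ω, h (N n ω) ∂PP) * ENNReal.ofReal (1 / 4) + ENNReal.ofReal (1 / 64) := by
          rw [int_β, ← int_α n]
          congr 1
          exact lintegral_mul_eq_lintegral_mul_lintegral_of_indepFun hmh hmα
            ((indepN n).comp (Measurable.of_discrete : Measurable h) (Measurable.of_discrete : Measurable α))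
      _ ≤ ENNReal.ofReal (1 / 48) * ENNReal.ofReal (1 / 4) + ENNReal.ofReal (1 / 64) := by
          gcongr
      _ = ENNReal.ofReal (1 / 48) := by
          rw [← ENNReal.ofReal_mul (by norm_num), ← ENNReal.ofReal_add (by norm_num) (by norm_num)]
          congr 1; norm_num

lemma upper' (n : ℕ) : ∫⁻ ω, ENNReal.ofReal (U n ω) ∂PP ≤ ENNReal.ofReal (1 / 48) := by
  refine (lintegral_mono fun ω => ?_).trans (upper n)
  unfold U h
  rw [ENNReal.ofReal_natCast]
  have : N n ω ≤ 2 ^ (N n ω) - 1 := by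
    have := Nat.lt_two_pow_self (n := N n ω)
    omega
  exact Nat.cast_le.2 this

lemma lower : ENNReal.ofReal (1 / 32) ≤ ∫⁻ ω, ENNReal.ofReal (⨅ i, V 2 ω i) ∂PP := by
  have h1 : ∀ ω : Om, (if ω (Sum.inl 0) then (1:ℝ≥0∞) else 0) * (if ω (Sum.inr 0) then (1:ℝ≥0∞) else 0) +
      (if ω (Sum.inl 1) then (1:ℝ≥0∞) else 0) * (if ω (Sum.inr 0) then (1:ℝ≥0∞) else 0) ≤
      ENNReal.ofReal (⨅ i, V 2 ω i) := by
    intro ω
    obtain ⟨h0, h1⟩ := V_two ω
    have h2 : (if ω (Sum.inr 0) then ((if ω (Sum.inl 0) then (1:ℝ) else 0) +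
        (if ω (Sum.inl 1) then (1:ℝ) else 0)) else 0) ≤ ⨅ i, V 2 ω i := by
      refine le_ciInf fun i => ?_
      fin_cases i
      · exact h0
      · exact h1
    refine le_trans (le_of_eq ?_) (ENNReal.ofReal_le_ofReal h2)
    rcases hb : ω (Sum.inl 0) <;> rcases hc : ω (Sum.inr 0) <;> rcases hd : ω (Sum.inl 1) <;> simp
    rw [ENNReal.ofReal_add (by norm_num) (by norm_num)]
    simp
  refine le_trans ?_ (lintegral_mono h1)
  have hm : Measurable fun ω : Om => (if ω (Sum.inl 0) then (1:ℝ≥0∞) else 0) *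
      (if ω (Sum.inr 0) then (1:ℝ≥0∞) else 0) := by
    have h1 : Measurable fun x : Bool × Bool => (if x.1 then (1:ℝ≥0∞) else 0) *
      (if x.2 then (1:ℝ≥0∞) else 0) := Measurable.of_discrete
    have h2 : Measurable fun ω : Om => (ω (Sum.inl 0), ω (Sum.inr 0)) :=
      (measurable_pi_apply (Sum.inl 0)).prodMk (measurable_pi_apply (Sum.inr 0))
    exact h1.comp h2
  rw [lintegral_add_left hm]
  have e1 := lintegral_two (fun b : Bool => if b then (1:ℝ≥0∞) else 0) (fun b : Bool => if b then (1:ℝ≥0∞) else 0)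
    (i := Sum.inl 0) (j := Sum.inr 0) (by simp)
  have e2 := lintegral_two (fun b : Bool => if b then (1:ℝ≥0∞) else 0) (fun b : Bool => if b then (1:ℝ≥0∞) else 0)
    (i := Sum.inl 1) (j := Sum.inr 0) (by simp)
  rw [e1, e2]
  simp only [if_true, Bool.false_eq_true, if_false, mul_zero, add_zero, mul_one]
  rw [← ENNReal.ofReal_mul (by norm_num), ← ENNReal.ofReal_add (by norm_num) (by norm_num)]
  exact ENNReal.ofReal_le_ofReal (by norm_num)

end Pool.Agent.V11331.Q.Fast
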